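import Pool.Agent.H25R3.Cones.Red
import Pool.Agent.H25R3.Cones.Compl

/-!
# Recognition of unimodular vertex cones

Deciding whether, for a 0-1 matrix `A` and a positive rational vector `b`, the matrix `A(u)` is a
square matrix with determinant `1` up to sign at every vertex `u` of `{x : A x ≤ b, x ≥ 0}`, is
`coNP`-hard. Hence there is no polynomial-time algorithm for this unless `P = NP`.
-/

namespace Pool.Agent.Results.MP_148663_lc.UnimodularCones

open Pool.Agent.NPC Pool.Agent.H25R3.Cones

theorem result : CoNPHardP UnimodularCones ∧
    (InPP UnimodularCones → ∀ L : Set (List Bool), InNP L → InP L) :=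
  ⟨coNPHard_unimodularCones, coNPHardP_collapse coNPHard_unimodularCones⟩

end Pool.Agent.Results.MP_148663_lc.UnimodularCones
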